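import Pool.Agent.K3h61.CA.Joint

/-!
# MP_9cf523_lc, Q2: no constant factor for randomized prior-free clock auctions

For every `c` there is a downward-closed `F` such that every randomized prior-free clock auction for
`F` has expected welfare below `OPT(v) / c` at some profile `v` of values.  The proof averages the
expected welfare of the random auction over the hard distribution of the Bayesian case
(`Pool.Agent.K3h61.CA.Joint`).
-/

set_option autoImplicit false

open MeasureTheory

namespace Pool.Agent.Results.MP_9cf523_lc.NoConstantFactorPriorFree

open K3h61.CA

/-- a downward-closed feasibility constraint -/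
def DownwardClosed {N : Type} (F : Finset (Finset N)) : Prop :=
  ∅ ∈ F ∧ ∀ S ∈ F, ∀ S' ⊆ S, S' ∈ F

/-- **Q2 has a negative answer.** For every `c` there is a downward-closed family `F` such that for
every random deterministic clock auction `A` (the law of `A` does not depend on the values) which
at every profile of nonnegative values almost surely stops with a feasible active set, there is a
profile `v` of nonnegative values with `c E[welfare of A at v] < OPT(v)`. -/
theorem result : ∀ c : ℝ, ∃ (n : ℕ) (F : Finset (Finset (Fin n))), DownwardClosed F ∧
    ∀ (Ω : Type) [MeasurableSpace Ω] (P : Measure Ω) [IsProbabilityMeasure P]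
      (A : Ω → ClockAuction (Fin n)),
      (∀ v : Fin n → ℝ, (∀ i, 0 ≤ v i) →
        (∀ᵐ ω ∂P, (A ω).ValidAt F v) ∧ Measurable (fun ω => (A ω).welfare v)) →
      ∃ v : Fin n → ℝ, (∀ i, 0 ≤ v i) ∧
        c * ∫ ω, (A ω).welfare v ∂P < opt F v :=
  Joint.both.2

end Pool.Agent.Results.MP_9cf523_lc.NoConstantFactorPriorFree
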